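import Mathlib
import Pool.Agent.Lib.helper6.Cross

set_option autoImplicit false

namespace Pool.Agent.Results.MP_63c1c3_gt.Metrizable

open Set Topology TopologicalSpace Pool.Agent.Lib.helper6.Cross

theorem result (X Y : Type) [TopologicalSpace X] [TopologicalSpace Y] [PolishSpace X]
    [PolishSpace Y] (K : Set (S X Y)) :
    (@IsCompact _ (cro X Y) K → @MetrizableSpace K (@instTopologicalSpaceSubtype _ _ (cro X Y))) ∧
    (@IsCompact _ (cru X Y) K → @MetrizableSpace K (@instTopologicalSpaceSubtype _ _ (cru X Y))) := by
  constructor
  · let _ := cro X Y
    intro h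
    have := isCompact_iff_compactSpace.1 h
    exact met _ Subtype.val_injective fun p => (ev_cro p).comp continuous_subtype_val
  · let _ := cru X Y
    intro h
    have := isCompact_iff_compactSpace.1 h
    exact met _ Subtype.val_injective fun p => (ev_cru p).comp continuous_subtype_val

end Pool.Agent.Results.MP_63c1c3_gt.Metrizable
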